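import Mathlib
import Pool.Agent.Helper974.Moufang.Criterion

set_option autoImplicit false

/-!
# Definitions for the project Haar integral on compact Moufang loops (helper100)

`Kei3 D` : a compact kei (involutory quandle) coloured by `Fin 3` (reflections of a Moufang loop).
-/

namespace Pool.Agent.H100R2.MH

open Topology Filter Set
open Pool.Agent.Helper974.Moufang (kk FF IsMoufang FF_cont kk_kk kk_kei)

/-- a topological kei (involutory quandle) with a colouring by `Fin 3`; two elements of different colours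
satisfy `r x z = r z x` (of the third colour `kk (t x) (t z) = -(t x + t z)`) -/
structure Kei3 (D : Type*) [TopologicalSpace D] where
  r : D → D → D
  t : D → Fin 3
  cont : Continuous (fun p : D × D => r p.1 p.2)
  tcont : Continuous t
  tsurj : Function.Surjective t
  inv : ∀ x z, r x (r x z) = z
  kei : ∀ x y z, r x (r y z) = r (r x y) (r x z)
  tr : ∀ x z, t (r x z) = kk (t x) (t z)
  comm : ∀ x z, t x ≠ t z → r x z = r z x

section
variable {D : Type*} [TopologicalSpace D]

/-- the locally convex space in which the states live (topology of pointwise convergence) -/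
abbrev XX (D : Type*) [TopologicalSpace D] : Type _ := C(D, ℝ) → ℝ

/-- the states of `C(D)` : positive normalised linear functionals -/
def St (D : Type*) [TopologicalSpace D] : Set (XX D) :=
  {p | (∀ f g, p (f + g) = p f + p g) ∧ (∀ (c : ℝ) f, p (c • f) = c * p f) ∧ p 1 = 1 ∧
    ∀ f : C(D, ℝ), (∀ x, 0 ≤ f x) → 0 ≤ p f}

/-- push forward under a continuous map, as a continuous linear map of `XX D` -/
def push (g : C(D, D)) : XX D →L[ℝ] XX D :=
  ContinuousLinearMap.pi (fun f => ContinuousLinearMap.proj (R := ℝ) (φ := fun _ : C(D, ℝ) => ℝ) (f.comp g))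

theorem push_apply (g : C(D, D)) (p : XX D) (f : C(D, ℝ)) : push g p f = p (f.comp g) := rfl

/-- the point mass -/
def dirac (x : D) : XX D := fun f => f x

/-- the support of a state -/
def supp (p : XX D) : Set D := {x | ∀ u : C(D, ℝ), (∀ z, 0 ≤ u z) → 0 < u x → 0 < p u}

/-- the reflection at `x` -/
def Kei3.rc (K : Kei3 D) (x : D) : C(D, D) :=
  ⟨K.r x, K.cont.comp (continuous_const.prodMk continuous_id)⟩

/-- the product of the reflections at the elements of a list -/
def Kei3.act (K : Kei3 D) : List D → C(D, D)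
  | [] => ContinuousMap.id D
  | x :: l => (K.rc x).comp (K.act l)

open Classical in
/-- `x ↦ q (f ∘ r x)` -/
noncomputable def Kei3.slice (K : Kei3 D) (q : XX D) (f : C(D, ℝ)) : C(D, ℝ) :=
  if h : Continuous (fun x => q (f.comp (K.rc x))) then ⟨fun x => q (f.comp (K.rc x)), h⟩ else 0

/-- the convolution `∫ (r x)_* q dp(x)` -/
noncomputable def Kei3.BB (K : Kei3 D) (p q : XX D) : XX D := fun f => p (K.slice q f)

/-- the indicator of the colour `i` -/
noncomputable def Kei3.ind (K : Kei3 D) (i : Fin 3) : C(D, ℝ) :=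
  ⟨fun x => if K.t x = i then 1 else 0,
    (continuous_of_discreteTopology (f := fun j : Fin 3 => if j = i then (1 : ℝ) else 0)).comp K.tcont⟩

/-- closed convex nonempty invariant set of states -/
structure Kei3.Inv (K : Kei3 D) (Q : Set (XX D)) : Prop where
  sub : Q ⊆ St D
  closed : IsClosed Q
  convex : Convex ℝ Q
  nonempty : Q.Nonempty
  inv : ∀ x, ∀ q ∈ Q, push (K.rc x) q ∈ Q

/-- minimal such -/
def Kei3.IsMin (K : Kei3 D) (Q : Set (XX D)) : Prop :=
  K.Inv Q ∧ ∀ Q' ⊆ Q, K.Inv Q' → Q' = Q

/-- words in `E` -/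
def Kei3.W (K : Kei3 D) (E : Set D) : ℕ → Set D
  | 0 => E
  | n + 1 => K.W E n ∪ {z | ∃ u ∈ K.W E n, ∃ v ∈ K.W E n, z = K.r u v}

end

/-- the reflection operation on `Fin 3 × G` -/
def lk {G : Type*} (mul ldiv : G → G → G) (e : G) (p q : Fin 3 × G) : Fin 3 × G :=
  (kk p.1 q.1, FF mul ldiv e p.1 q.1 p.2 q.2)

theorem lk_inv {G : Type*} {mul ldiv rdiv : G → G → G} {e : G}
    (h : IsMoufang mul ldiv rdiv e) (p q : Fin 3 × G) :
    lk mul ldiv e p (lk mul ldiv e p q) = q := by
  obtain ⟨i, a⟩ := p
  obtain ⟨j, x⟩ := q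
  exact Prod.ext (kk_kk i j) (h.FF_FF i j a x)

theorem lk_kei0 {G : Type*} {mul ldiv rdiv : G → G → G} {e : G}
    (h : IsMoufang mul ldiv rdiv e) (p q s : Fin 3 × G) :
    lk mul ldiv e q (lk mul ldiv e p s) = lk mul ldiv e p (lk mul ldiv e (lk mul ldiv e p q) s) := by
  obtain ⟨i, a⟩ := p
  obtain ⟨j, b⟩ := q
  obtain ⟨k, x⟩ := s
  exact Prod.ext (kk_kei i j k) (h.FF_kei i j k a b x)

theorem lk_kei {G : Type*} {mul ldiv rdiv : G → G → G} {e : G}
    (h : IsMoufang mul ldiv rdiv e) (p q s : Fin 3 × G) :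
    lk mul ldiv e p (lk mul ldiv e q s) = lk mul ldiv e (lk mul ldiv e p q) (lk mul ldiv e p s) := by
  have h1 := lk_kei0 h p q (lk mul ldiv e p s)
  rw [lk_inv h] at h1
  rw [h1, lk_inv h]

/-- the kei of the reflections of a Moufang loop -/
def loopKei {G : Type*} [TopologicalSpace G] {mul ldiv rdiv : G → G → G} {e : G}
    (h : IsMoufang mul ldiv rdiv e) (hm : Continuous (fun p : G × G => mul p.1 p.2))
    (hl : Continuous (fun p : G × G => ldiv p.1 p.2)) : Kei3 (Fin 3 × G) where
  r p q := lk mul ldiv e p q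
  t p := p.1
  cont := by
    have hk : Continuous (fun p : (Fin 3 × G) × (Fin 3 × G) => kk p.1.1 p.2.1) :=
      (continuous_of_discreteTopology (f := fun q : Fin 3 × Fin 3 => kk q.1 q.2)).comp
        ((continuous_fst.comp continuous_fst).prodMk (continuous_fst.comp continuous_snd))
    refine hk.prodMk ?_
    rw [continuous_iff_continuousAt]
    rintro ⟨⟨i, a⟩, ⟨j, x⟩⟩
    have hc : Continuous (fun p : (Fin 3 × G) × (Fin 3 × G) => FF mul ldiv e i j p.1.2 p.2.2) :=
      (FF_cont hm hl i j).comp ((continuous_snd.comp continuous_fst).prodMk (continuous_snd.comp continuous_snd))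
    refine hc.continuousAt.congr ?_
    have ho : IsOpen {p : (Fin 3 × G) × (Fin 3 × G) | p.1.1 = i ∧ p.2.1 = j} :=
      ((isOpen_discrete ({i} : Set (Fin 3))).preimage (continuous_fst.comp continuous_fst)).inter
        ((isOpen_discrete ({j} : Set (Fin 3))).preimage (continuous_fst.comp continuous_snd))
    filter_upwards [ho.mem_nhds (show ((i, a), (j, x)) ∈ _ from ⟨rfl, rfl⟩)] with p hp
    rw [hp.1, hp.2]
  tcont := continuous_fst
  tsurj := fun i => ⟨(i, e), rfl⟩
  inv := fun p q => lk_inv h p q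
  kei := fun p q s => lk_kei h p q s
  tr := fun _ _ => rfl
  comm := by
    rintro ⟨i, a⟩ ⟨j, x⟩ hij
    refine Prod.ext ?_ ?_
    · change kk i j = kk j i
      clear hij
      revert i j; decide
    · change FF mul ldiv e i j a x = FF mul ldiv e j i x a
      have hij' : i ≠ j := hij
      clear hij
      fin_cases i <;> fin_cases j <;>
        first
        | exact absurd rfl hij'
        | (simp (config := {decide := true}) only [FF, if_true, if_false])

section
variable {G : Type*} [TopologicalSpace G]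

/-- there is a state of `C(G)` invariant under the left and right translations by elements of `E` -/
def AmenOn (mul : G → G → G) (E : Set G) : Prop :=
  ∃ p ∈ St G, ∀ a ∈ E, (∀ f g : C(G, ℝ), (∀ x, g x = f (mul a x)) → p g = p f) ∧
    (∀ f g : C(G, ℝ), (∀ x, g x = f (mul x a)) → p g = p f)

/-- there is an invariant integral (Haar integral) for the product `mul` on `G`: a normalised
positive linear functional on `C(G)` invariant under all left and right translations -/
def HasInvariantIntegral (mul : G → G → G) : Prop :=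
  ∃ I : C(G, ℝ) →ₗ[ℝ] ℝ, I 1 = 1 ∧ (∀ f : C(G, ℝ), (∀ x, 0 ≤ f x) → 0 ≤ I f) ∧
    (∀ (a : G) (f g : C(G, ℝ)), (∀ x, g x = f (mul a x)) → I g = I f) ∧
    (∀ (a : G) (f g : C(G, ℝ)), (∀ x, g x = f (mul x a)) → I g = I f)

/-- the same for a subset `K` closed under the product: a normalised positive linear functional on
`C(K)` invariant under the translations `y ↦ k y` and `y ↦ y k` of `K`, for all `k ∈ K` -/
def HasInvariantIntegralOn (mul : G → G → G) (K : Set G) : Prop :=
  ∃ I : C(K, ℝ) →ₗ[ℝ] ℝ, I 1 = 1 ∧ (∀ f : C(K, ℝ), (∀ x, 0 ≤ f x) → 0 ≤ I f) ∧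
    (∀ (k : K) (f g : C(K, ℝ)), (∀ y z : K, (z : G) = mul k y → g y = f z) → I g = I f) ∧
    (∀ (k : K) (f g : C(K, ℝ)), (∀ y z : K, (z : G) = mul y k → g y = f z) → I g = I f)

/-- closed subloop -/
structure ClosedSubloop (mul ldiv : G → G → G) (e : G) (H : Set G) : Prop where
  closed : IsClosed H
  one_mem : e ∈ H
  mul_mem : ∀ x ∈ H, ∀ y ∈ H, mul x y ∈ H
  inv_mem : ∀ x ∈ H, ldiv x e ∈ H

/-- products in the loop of elements of `E` -/
def PW (mul : G → G → G) (E : Set G) : ℕ → Set G
  | 0 => E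
  | n + 1 => PW mul E n ∪ {z | ∃ u ∈ PW mul E n, ∃ v ∈ PW mul E n, z = mul u v}

end

end Pool.Agent.H100R2.MH
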