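import Mathlib
import Pool.Agent.H100R2.MH.Defs

set_option autoImplicit false

/-!
# Exact statements of the tasks (helper100): Haar integral on compact Moufang loops

PART A: abstract compact kei.   PART B: loops.
-/

namespace Pool.Agent.H100R2.MH

open Topology Filter Set
open Pool.Agent.Helper974.Moufang (kk FF IsMoufang FF_cont kk_kk kk_kei)

universe u

/-- the state space is compact and convex, states are bounded, point masses are states -/
def T01 : Prop := ∀ (D : Type u) [TopologicalSpace D] [CompactSpace D] [T2Space D],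
  IsCompact (St D) ∧ Convex ℝ (St D) ∧ (∀ p ∈ St D, ∀ f : C(D, ℝ), |p f| ≤ ‖f‖) ∧
    (∀ x : D, dirac x ∈ St D)

/-- Milman's theorem (partial converse of Krein-Milman) -/
def T02 : Prop := ∀ (E : Type u) [AddCommGroup E] [Module ℝ E] [TopologicalSpace E]
  [IsTopologicalAddGroup E] [ContinuousSMul ℝ E] [LocallyConvexSpace ℝ E] [T2Space E] (Q K : Set E),
  IsCompact Q → Convex ℝ Q → IsCompact K → K ⊆ Q → Q ⊆ closure (convexHull ℝ K) →
    ∀ y ∈ Q.extremePoints ℝ, y ∈ K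

/-- existence of a minimal invariant set and of an extreme point in it -/
def T03 : Prop := ∀ (D : Type u) [TopologicalSpace D] [CompactSpace D] [T2Space D] (K : Kei3 D),
  ∃ Q, K.IsMin Q ∧ (Q.extremePoints ℝ).Nonempty

/-- elementary facts on `push` and `act` -/
def T04 : Prop := ∀ (D : Type u) [TopologicalSpace D] [CompactSpace D] [T2Space D] (K : Kei3 D),
  (∀ (g : C(D, D)), ∀ p ∈ St D, push g p ∈ St D) ∧
  (∀ (l l' : List D) z, K.act (l ++ l') z = K.act l (K.act l' z)) ∧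
  (∀ (l : List D) z, K.act l (K.act l.reverse z) = z) ∧
  (∀ (l : List D) z, K.act l.reverse (K.act l z) = z) ∧
  (∀ (l : List D) y z, K.act l (K.r y z) = K.r (K.act l y) (K.act l z)) ∧
  (∀ (l : List D) y z, K.t y ≠ K.t z → K.t (K.act l y) ≠ K.t (K.act l z)) ∧
  (∀ Q, K.Inv Q → ∀ (l : List D), ∀ q ∈ Q, push (K.act l) q ∈ Q) ∧
  (∀ (l : List D) x p, push (K.act l) (push (K.rc x) p) = push (K.rc (K.act l x)) (push (K.act l) p)) ∧
  (∀ (l : List D), ∀ p ∈ St D, (∀ i, p (K.ind i) = 1 / 3) → ∀ i, push (K.act l) p (K.ind i) = 1 / 3)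

/-- elementary facts on the convolution -/
def T05 : Prop := ∀ (D : Type u) [TopologicalSpace D] [CompactSpace D] [T2Space D] (K : Kei3 D),
  (∀ q ∈ St D, ∀ (f : C(D, ℝ)) (x : D), K.slice q f x = q (f.comp (K.rc x))) ∧
  (∀ p ∈ St D, ∀ q ∈ St D, K.BB p q ∈ St D) ∧
  (∀ (p p' q : XX D) (a b : ℝ), K.BB (a • p + b • p') q = a • K.BB p q + b • K.BB p' q) ∧
  (∀ q ∈ St D, ∀ x : D, K.BB (dirac x) q = push (K.rc x) q) ∧
  (∀ (l : List D), ∀ p ∈ St D, ∀ q ∈ St D,
    push (K.act l) (K.BB p q) = K.BB (push (K.act l) p) (push (K.act l) q))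

/-- joint continuity of the convolution on states -/
def T06 : Prop := ∀ (D : Type u) [TopologicalSpace D] [CompactSpace D] [T2Space D] (K : Kei3 D)
  (ι : Type u) (F : Filter ι) (q : ι → XX D) (q' : XX D), (∀ i, q i ∈ St D) → q' ∈ St D →
  Tendsto q F (𝓝 q') →
  (∀ (p : ι → XX D) (p' : XX D), (∀ i, p i ∈ St D) → p' ∈ St D → Tendsto p F (𝓝 p') →
    Tendsto (fun i => K.BB (p i) (q i)) F (𝓝 (K.BB p' q'))) ∧
  (∀ (w : ι → D) (w' : D), Tendsto w F (𝓝 w') →
    Tendsto (fun i => push (K.rc (w i)) (q i)) F (𝓝 (push (K.rc w') q')))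

/-- convolutions stay in invariant closed convex sets -/
def T07 : Prop := ∀ (D : Type u) [TopologicalSpace D] [CompactSpace D] [T2Space D] (K : Kei3 D) (Q : Set (XX D)),
  K.Inv Q → ∀ p ∈ St D, ∀ q ∈ Q, K.BB p q ∈ Q

/-- extremality: if `y` is extreme and `BB p y = y` then `y` is fixed by the reflections in the support of `p` -/
def T08 : Prop := ∀ (D : Type u) [TopologicalSpace D] [CompactSpace D] [T2Space D] (K : Kei3 D) (Q : Set (XX D)),
  K.Inv Q → ∀ y ∈ Q.extremePoints ℝ, ∀ p ∈ St D, K.BB p y = y → ∀ x ∈ supp p, push (K.rc x) y = y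

/-- contraction of finitely many points of a minimal set to an extreme point -/
def T09 : Prop := ∀ (D : Type u) [TopologicalSpace D] [CompactSpace D] [T2Space D] (K : Kei3 D) (Q : Set (XX D)),
  K.IsMin Q → ∀ y ∈ Q.extremePoints ℝ, ∀ (n : ℕ) (q : Fin n → XX D), (∀ i, q i ∈ Q) →
  ∃ 𝒰 : Ultrafilter (List D), Tendsto (fun l => push (K.act l) y) 𝒰 (𝓝 y) ∧
    ∀ i, Tendsto (fun l => push (K.act l) (q i)) 𝒰 (𝓝 y)

/-- the members of a minimal set give mass `1/3` to each colour -/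
def T10 : Prop := ∀ (D : Type u) [TopologicalSpace D] [CompactSpace D] [T2Space D] (K : Kei3 D) (Q : Set (XX D)),
  K.IsMin Q → ∀ q ∈ Q, ∀ i, q (K.ind i) = 1 / 3

/-- supports -/
def T11 : Prop := ∀ (D : Type u) [TopologicalSpace D] [CompactSpace D] [T2Space D] (K : Kei3 D),
  ∀ p ∈ St D, ((∀ i, p (K.ind i) = 1 / 3) → ∀ i, ∃ x ∈ supp p, K.t x = i) ∧
    (∀ x, push (K.rc x) p = p → ∀ z ∈ supp p, K.r x z ∈ supp p)

/-- an extreme point of a minimal set is idempotent -/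
def T12 : Prop := ∀ (D : Type u) [TopologicalSpace D] [CompactSpace D] [T2Space D] (K : Kei3 D) (Q : Set (XX D)),
  K.IsMin Q → ∀ y ∈ Q.extremePoints ℝ, K.BB y y = y

/-- the support of an extreme point = the set of the reflections fixing it -/
def T13 : Prop := ∀ (D : Type u) [TopologicalSpace D] [CompactSpace D] [T2Space D] (K : Kei3 D) (Q : Set (XX D)),
  K.IsMin Q → ∀ y ∈ Q.extremePoints ℝ, ∀ x, x ∈ supp y ↔ push (K.rc x) y = y

/-- absorption of finitely many states -/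
def T14 : Prop := ∀ (D : Type u) [TopologicalSpace D] [CompactSpace D] [T2Space D] (K : Kei3 D) (Q : Set (XX D)),
  K.IsMin Q → ∀ y ∈ Q.extremePoints ℝ, ∀ (n : ℕ) (p : Fin n → XX D), (∀ j, p j ∈ St D) →
  ∃ 𝒰 : Ultrafilter (List D), ∀ j, ∃ ps ∈ St D,
    Tendsto (fun l => push (K.act l) (p j)) 𝒰 (𝓝 ps) ∧ ∀ x ∈ supp ps, push (K.rc x) y = y

/-- the selection lemma -/
def T15 : Prop := ∀ (D : Type u) [TopologicalSpace D] [CompactSpace D] [T2Space D] (K : Kei3 D)
  (S E : Set D) (p ps : XX D) (𝒰 : Ultrafilter (List D)),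
  (∀ x ∈ S, ∀ z ∈ S, K.r x z ∈ S) → p ∈ St D → ps ∈ St D → (∀ i, p (K.ind i) = 1 / 3) →
  (∀ x ∈ E, push (K.rc x) p = p) → Tendsto (fun l => push (K.act l) p) 𝒰 (𝓝 ps) → supp ps ⊆ S →
  ∀ (x : List D → D) (w : D), (∀ᶠ l in (𝒰 : Filter (List D)), x l ∈ E) →
    Tendsto (fun l => K.act l (x l)) 𝒰 (𝓝 w) → w ∈ S

/-- words -/
def T16 : Prop := ∀ (D : Type u) [TopologicalSpace D] [CompactSpace D] [T2Space D] (K : Kei3 D)
  (S : Set D) (n : ℕ) (E : Fin n → Set D) (𝒰 : Ultrafilter (List D)),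
  (∀ x ∈ S, ∀ z ∈ S, K.r x z ∈ S) →
  (∀ (j : Fin n) (x : List D → D) (w : D), (∀ᶠ l in (𝒰 : Filter (List D)), x l ∈ E j) →
    Tendsto (fun l => K.act l (x l)) 𝒰 (𝓝 w) → w ∈ S) →
  ∀ m, K.W (⋃ j, E j) m = univ → S = univ

/-- the core theorem -/
def T17 : Prop := ∀ (D : Type u) [TopologicalSpace D] [CompactSpace D] [T2Space D] (K : Kei3 D)
  (n : ℕ) (E : Fin n → Set D) (p : Fin n → XX D), (∀ j, p j ∈ St D) →
  (∀ j i, p j (K.ind i) = 1 / 3) → (∀ j, ∀ x ∈ E j, push (K.rc x) (p j) = p j) →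
  ∀ m, K.W (⋃ j, E j) m = univ →
  ∃ y ∈ St D, (∀ i, y (K.ind i) = 1 / 3) ∧ ∀ x, push (K.rc x) y = y

/-! PART B -/

/-- from the kei to the loop -/
def T18 : Prop := ∀ (G : Type u) [TopologicalSpace G] [CompactSpace G] [T2Space G]
  (mul ldiv rdiv : G → G → G) (e : G) (h : IsMoufang mul ldiv rdiv e)
  (hm : Continuous (fun p : G × G => mul p.1 p.2)) (hl : Continuous (fun p : G × G => ldiv p.1 p.2)),
  (∃ y ∈ St (Fin 3 × G), (∀ i, y ((loopKei h hm hl).ind i) = 1 / 3) ∧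
    ∀ x, push ((loopKei h hm hl).rc x) y = y) → AmenOn mul (univ : Set G)

/-- from the loop to the kei -/
def T19 : Prop := ∀ (G : Type u) [TopologicalSpace G] [CompactSpace G] [T2Space G]
  (mul ldiv rdiv : G → G → G) (e : G) (h : IsMoufang mul ldiv rdiv e)
  (hm : Continuous (fun p : G × G => mul p.1 p.2)) (hl : Continuous (fun p : G × G => ldiv p.1 p.2))
  (E : Set G), AmenOn mul E →
  ∃ p ∈ St (Fin 3 × G), (∀ i, p ((loopKei h hm hl).ind i) = 1 / 3) ∧
    ∀ (i : Fin 3), ∀ x ∈ E, push ((loopKei h hm hl).rc (i, x)) p = p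

/-- words in the loop and in the kei -/
def T20 : Prop := ∀ (G : Type u) [TopologicalSpace G] [CompactSpace G] [T2Space G]
  (mul ldiv rdiv : G → G → G) (e : G) (h : IsMoufang mul ldiv rdiv e)
  (hm : Continuous (fun p : G × G => mul p.1 p.2)) (hl : Continuous (fun p : G × G => ldiv p.1 p.2))
  (E : Set G), e ∈ E → ∀ m, {z : Fin 3 × G | z.2 ∈ PW mul E m} ⊆
    (loopKei h hm hl).W {z : Fin 3 × G | z.2 ∈ E} (2 * m)

/-- a single element has an invariant state -/
def T21 : Prop := ∀ (G : Type u) [TopologicalSpace G] [CompactSpace G] [T2Space G]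
  (mul ldiv rdiv : G → G → G) (e : G), IsMoufang mul ldiv rdiv e →
  Continuous (fun p : G × G => mul p.1 p.2) → Continuous (fun p : G × G => ldiv p.1 p.2) →
  ∀ x : G, AmenOn mul {x}

/-- Baire category: a compact Moufang loop generated by countably many closed sets is generated in a bounded
number of steps by finitely many of these sets and finitely many elements -/
def T22 : Prop := ∀ (G : Type u) [TopologicalSpace G] [CompactSpace G] [T2Space G]
  (mul ldiv rdiv : G → G → G) (e : G), IsMoufang mul ldiv rdiv e →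
  Continuous (fun p : G × G => mul p.1 p.2) → Continuous (fun p : G × G => ldiv p.1 p.2) →
  Continuous (fun p : G × G => rdiv p.1 p.2) →
  ∀ (E : ℕ → Set G), (∀ j, IsClosed (E j)) →
  (∀ A : Set G, e ∈ A → (∀ j, E j ⊆ A) → (∀ x ∈ A, ∀ y ∈ A, mul x y ∈ A) → A = univ) →
  ∃ (N : ℕ) (F : Finset G) (m : ℕ), e ∈ F ∧ PW mul ((⋃ j ∈ Finset.range N, E j) ∪ (F : Set G)) m = univ

/-- main theorem for a loop generated by countably many closed subsets with invariant states -/
def T23 : Prop := ∀ (G : Type u) [TopologicalSpace G] [CompactSpace G] [T2Space G]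
  (mul ldiv rdiv : G → G → G) (e : G), IsMoufang mul ldiv rdiv e →
  Continuous (fun p : G × G => mul p.1 p.2) → Continuous (fun p : G × G => ldiv p.1 p.2) →
  Continuous (fun p : G × G => rdiv p.1 p.2) →
  ∀ (E : ℕ → Set G), (∀ j, IsClosed (E j)) → (∀ j, AmenOn mul (E j)) →
  (∀ A : Set G, e ∈ A → (∀ j, E j ⊆ A) → (∀ x ∈ A, ∀ y ∈ A, mul x y ∈ A) → A = univ) →
  AmenOn mul (univ : Set G)

/-- the same for a closed subloop `H` of `L` -/
def T24 : Prop := ∀ (L : Type u) [TopologicalSpace L] [CompactSpace L] [T2Space L]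
  (mul ldiv rdiv : L → L → L) (e : L), IsMoufang mul ldiv rdiv e →
  Continuous (fun p : L × L => mul p.1 p.2) → Continuous (fun p : L × L => ldiv p.1 p.2) →
  Continuous (fun p : L × L => rdiv p.1 p.2) →
  ∀ H : Set L, ClosedSubloop mul ldiv e H → ∀ (E : ℕ → Set L),
  (∀ j, IsClosed (E j) ∧ E j ⊆ H ∧ (∀ x ∈ E j, ∀ y ∈ E j, mul x y ∈ E j) ∧
    HasInvariantIntegralOn mul (E j)) →
  (∀ A : Set L, e ∈ A → (∀ j, E j ⊆ A) → (∀ x ∈ A, ∀ y ∈ A, mul x y ∈ A) → H ⊆ A) →
  HasInvariantIntegralOn mul H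

/-- directed unions and closures -/
def T25 : Prop := ∀ (L : Type u) [TopologicalSpace L] [CompactSpace L] [T2Space L]
  (mul : L → L → L), Continuous (fun p : L × L => mul p.1 p.2) →
  ∀ (K : Set L) (𝒢 : Set (Set L)), IsClosed K → (∀ x ∈ K, ∀ y ∈ K, mul x y ∈ K) → 𝒢.Nonempty →
  DirectedOn (· ⊆ ·) 𝒢 → (∀ H ∈ 𝒢, IsClosed H ∧ H ⊆ K ∧ (∀ x ∈ H, ∀ y ∈ H, mul x y ∈ H) ∧
    HasInvariantIntegralOn mul H) → K ⊆ closure (⋃₀ 𝒢) → HasInvariantIntegralOn mul K

/-- a closed associative subloop (a compact group) has an invariant integral -/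
def T26 : Prop := ∀ (L : Type u) [TopologicalSpace L] [CompactSpace L] [T2Space L]
  (mul ldiv rdiv : L → L → L) (e : L), IsMoufang mul ldiv rdiv e →
  Continuous (fun p : L × L => mul p.1 p.2) → Continuous (fun p : L × L => ldiv p.1 p.2) →
  ∀ H : Set L, ClosedSubloop mul ldiv e H →
  (∀ x ∈ H, ∀ y ∈ H, ∀ z ∈ H, mul (mul x y) z = mul x (mul y z)) → HasInvariantIntegralOn mul H

/-- from the identity component to the loop -/
def T27 : Prop := ∀ (L : Type u) [TopologicalSpace L] [CompactSpace L] [T2Space L]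
  (mul ldiv rdiv : L → L → L) (e : L), IsMoufang mul ldiv rdiv e →
  Continuous (fun p : L × L => mul p.1 p.2) → Continuous (fun p : L × L => ldiv p.1 p.2) →
  HasInvariantIntegralOn mul (connectedComponent e) → HasInvariantIntegral mul

end Pool.Agent.H100R2.MH
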