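import Mathlib
import Pool.Agent.H100R2.MH.Stubs

set_option autoImplicit false

/-!
# Second set of exact statements (helper100): the non-singularity criterion
-/

namespace Pool.Agent.H100R2.MH

open Topology Filter Set
open Pool.Agent.Helper974.Moufang (kk FF IsMoufang FF_cont kk_kk kk_kei)

universe u

/-- positive linear functionals -/
def Ps (D : Type*) [TopologicalSpace D] : Set (XX D) :=
  {p | (∀ f g, p (f + g) = p f + p g) ∧ (∀ (c : ℝ) f, p (c • f) = c * p f) ∧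
    ∀ f : C(D, ℝ), (∀ x, 0 ≤ f x) → 0 ≤ p f}

/-- `p` and its image under the reflection at `x` have a common positive minorant of mass at least `ε`
outside of the colour of `x` -/
def Kei3.Good {D : Type*} [TopologicalSpace D] (K : Kei3 D) (p : XX D) (ε : ℝ) (x : D) : Prop :=
  ∃ lam ∈ Ps D, (∀ f : C(D, ℝ), (∀ z, 0 ≤ f z) → lam f ≤ p f ∧ lam f ≤ p (f.comp (K.rc x))) ∧
    ε ≤ lam (1 - K.ind (K.t x))

/-- the set of the `a` such that `ν` and its image under `x ↦ a x` have a common positive minorant of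
mass at least `ε` -/
def NS {G : Type*} [TopologicalSpace G] (mul : G → G → G) (ν : XX G) (ε : ℝ) : Set G :=
  {a | ∃ lam ∈ Ps G, (∀ f : C(G, ℝ), (∀ z, 0 ≤ f z) → lam f ≤ ν f) ∧
    (∀ f g : C(G, ℝ), (∀ z, 0 ≤ f z) → (∀ z, g z = f (mul a z)) → lam f ≤ ν g) ∧ ε ≤ lam 1}

/-- the selection lemma, non-singular version -/
def T31 : Prop := ∀ (D : Type u) [TopologicalSpace D] [CompactSpace D] [T2Space D] (K : Kei3 D)
  (S E : Set D) (p ps : XX D) (ε : ℝ) (𝒰 : Ultrafilter (List D)),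
  (∀ x ∈ S, ∀ z ∈ S, K.r x z ∈ S) → p ∈ St D → ps ∈ St D → 0 < ε →
  (∀ x ∈ E, K.Good p ε x) → Tendsto (fun l => push (K.act l) p) 𝒰 (𝓝 ps) → supp ps ⊆ S →
  ∀ (x : List D → D) (w : D), (∀ᶠ l in (𝒰 : Filter (List D)), x l ∈ E) →
    Tendsto (fun l => K.act l (x l)) 𝒰 (𝓝 w) → w ∈ S

/-- the core theorem, non-singular version -/
def T32 : Prop := ∀ (D : Type u) [TopologicalSpace D] [CompactSpace D] [T2Space D] (K : Kei3 D)
  (n : ℕ) (E : Fin n → Set D) (p : Fin n → XX D) (ε : Fin n → ℝ), (∀ j, p j ∈ St D) →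
  (∀ j, 0 < ε j) → (∀ j, ∀ x ∈ E j, K.Good (p j) (ε j) x) →
  ∀ m, K.W (⋃ j, E j) m = univ →
  ∃ y ∈ St D, (∀ i, y (K.ind i) = 1 / 3) ∧ ∀ x, push (K.rc x) y = y

/-- from the loop to the kei, non-singular version -/
def T33 : Prop := ∀ (G : Type u) [TopologicalSpace G] [CompactSpace G] [T2Space G]
  (mul ldiv rdiv : G → G → G) (e : G) (h : IsMoufang mul ldiv rdiv e)
  (hm : Continuous (fun p : G × G => mul p.1 p.2)) (hl : Continuous (fun p : G × G => ldiv p.1 p.2)),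
  ∀ ν ∈ St G, ∃ p ∈ St (Fin 3 × G), ∀ (ε : ℝ) (i : Fin 3), ∀ x ∈ NS mul ν ε,
    (loopKei h hm hl).Good p (ε / 6) (i, x)

/-- closedness of the non-singularity sets -/
def T34 : Prop := ∀ (G : Type u) [TopologicalSpace G] [CompactSpace G] [T2Space G]
  (mul : G → G → G), Continuous (fun p : G × G => mul p.1 p.2) →
  ∀ ν ∈ St G, ∀ ε : ℝ, IsClosed (NS mul ν ε)

/-- main criterion: if the non-singular translations of one state generate the loop, then there is an
invariant state -/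
def T35 : Prop := ∀ (G : Type u) [TopologicalSpace G] [CompactSpace G] [T2Space G]
  (mul ldiv rdiv : G → G → G) (e : G), IsMoufang mul ldiv rdiv e →
  Continuous (fun p : G × G => mul p.1 p.2) → Continuous (fun p : G × G => ldiv p.1 p.2) →
  Continuous (fun p : G × G => rdiv p.1 p.2) →
  ∀ ν ∈ St G,
  (∀ A : Set G, e ∈ A → (∀ ε, 0 < ε → NS mul ν ε ⊆ A) → (∀ x ∈ A, ∀ y ∈ A, mul x y ∈ A) → A = univ) →
  AmenOn mul (univ : Set G)

/-- there is a probability (a normalised positive linear functional `ν` on `C(H)`) such that the set of the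
`k ∈ H` for which `ν` and its image under `y ↦ k y` are not mutually singular (= have a common positive
minorant `lam ≠ 0`) generates the closed subloop `H` as a loop -/
def NonsingularGen {L : Type*} [TopologicalSpace L] (mul : L → L → L) (e : L) (H : Set L) : Prop :=
  ∃ ν : C(H, ℝ) →ₗ[ℝ] ℝ, ν 1 = 1 ∧ (∀ f : C(H, ℝ), (∀ x, 0 ≤ f x) → 0 ≤ ν f) ∧
    ∀ A : Set L, e ∈ A → (∀ x ∈ A, ∀ y ∈ A, mul x y ∈ A) →
      (∀ k : H, (∃ lam : C(H, ℝ) →ₗ[ℝ] ℝ, 0 < lam 1 ∧ (∀ f : C(H, ℝ), (∀ x, 0 ≤ f x) → 0 ≤ lam f) ∧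
          (∀ f : C(H, ℝ), (∀ x, 0 ≤ f x) → lam f ≤ ν f) ∧
          (∀ f g : C(H, ℝ), (∀ x, 0 ≤ f x) → (∀ y z : H, (z : L) = mul k y → g y = f z) →
            lam f ≤ ν g)) → (k : L) ∈ A) → H ⊆ A

/-- the criterion for a closed subloop `H` of `L` -/
def T36 : Prop := ∀ (L : Type u) [TopologicalSpace L] [CompactSpace L] [T2Space L]
  (mul ldiv rdiv : L → L → L) (e : L), IsMoufang mul ldiv rdiv e →
  Continuous (fun p : L × L => mul p.1 p.2) → Continuous (fun p : L × L => ldiv p.1 p.2) →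
  Continuous (fun p : L × L => rdiv p.1 p.2) →
  ∀ H : Set L, ClosedSubloop mul ldiv e H → NonsingularGen mul e H → HasInvariantIntegralOn mul H

/-- countable generation by closed subsets with invariant integrals gives the criterion -/
def T37 : Prop := ∀ (L : Type u) [TopologicalSpace L] [CompactSpace L] [T2Space L]
  (mul ldiv : L → L → L) (e : L), Continuous (fun p : L × L => mul p.1 p.2) →
  ∀ H : Set L, ClosedSubloop mul ldiv e H → ∀ (E : ℕ → Set L),
  (∀ j, IsClosed (E j) ∧ E j ⊆ H ∧ (∀ x ∈ E j, ∀ y ∈ E j, mul x y ∈ E j) ∧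
    HasInvariantIntegralOn mul (E j)) →
  (∀ A : Set L, e ∈ A → (∀ j, E j ⊆ A) → (∀ x ∈ A, ∀ y ∈ A, mul x y ∈ A) → H ⊆ A) →
  NonsingularGen mul e H

end Pool.Agent.H100R2.MH
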