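import Mathlib
import Pool.Agent.H100R2.MH.Stubs2
import Pool.Agent.H100R2.MH.P.T01
import Pool.Agent.H100R2.MH.P.T03
import Pool.Agent.H100R2.MH.P.T04
import Pool.Agent.H100R2.MH.P.T05
import Pool.Agent.H100R2.MH.P.T06
import Pool.Agent.H100R2.MH.P.T07
import Pool.Agent.H100R2.MH.P.T08
import Pool.Agent.H100R2.MH.P.T09
import Pool.Agent.H100R2.MH.P.T10
import Pool.Agent.H100R2.MH.P.T11
import Pool.Agent.H100R2.MH.P.T12
import Pool.Agent.H100R2.MH.P.T13
import Pool.Agent.H100R2.MH.P.T14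
import Pool.Agent.H100R2.MH.P.T16
import Pool.Agent.H100R2.MH.P.T18
import Pool.Agent.H100R2.MH.P.T20
import Pool.Agent.H100R2.MH.P.T21
import Pool.Agent.H100R2.MH.P.T22
import Pool.Agent.H100R2.MH.P.T31
import Pool.Agent.H100R2.MH.P.T32
import Pool.Agent.H100R2.MH.P.T33
import Pool.Agent.H100R2.MH.P.T34
import Pool.Agent.H100R2.MH.P.T35
import Pool.Agent.H100R2.MH.P.T36

set_option autoImplicit false

/-!
# Assembly: the criterion for closed subloops, given Milman's theorem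
-/

namespace Pool.Agent.H100R2.MH

universe u

theorem p09 (t02 : T02.{u}) : T09.{u} := t09 t01 t02 t04

theorem p14 (t02 : T02.{u}) : T14.{u} :=
  t14 t01 t04 t05 (t06 t01 t05) (t07 t05) (t08 t01 t05 (t07 t05)) (p09 t02)

theorem p12 (t02 : T02.{u}) : T12.{u} := t12 t01 t04 t05 (t06 t01 t05) (t07 t05) (p09 t02)

theorem p13 (t02 : T02.{u}) : T13.{u} :=
  t13 t05 (t08 t01 t05 (t07 t05)) (t10 t01 t04) t11 (p12 t02)

theorem p32 (t02 : T02.{u}) : T32.{u} :=
  t32 (t03 t01 t04) (t10 t01 t04) t11 (p13 t02) (p14 t02) (t16 t04) (t31 t01 t04 (t06 t01 t05))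

theorem p35 (t02 : T02.{u}) : T35.{u} := t35 t18 t20 t21 t22 (p32 t02) t33 t34

theorem p36 (t02 : T02.{u}) : T36.{u} := t36 (p35 t02)

end Pool.Agent.H100R2.MH
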