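import Mathlib
import Pool.Agent.H100R2.MH.Stubs2
import Pool.Agent.Helper974.Moufang.Words2

set_option autoImplicit false

/-!
# Third set of exact statements (helper100): extensions
-/

namespace Pool.Agent.H100R2.MH

open Topology Filter Set
open Pool.Agent.Helper974.Moufang (kk FF IsMoufang FF_cont kk_kk kk_kei Wd)

universe u

/-- `N` is a closed normal subloop of `H`: `xN = Nx`, `x(yN) = (xy)N`, `(Nx)y = N(xy)` for `x, y ∈ H` -/
structure NormalIn {G : Type*} [TopologicalSpace G] (mul ldiv : G → G → G) (e : G) (N H : Set G) : Prop where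
  sub : ClosedSubloop mul ldiv e N
  le : N ⊆ H
  comm : ∀ x ∈ H, {z | ∃ n ∈ N, z = mul x n} = {z | ∃ n ∈ N, z = mul n x}
  left : ∀ x ∈ H, ∀ y ∈ H, {z | ∃ n ∈ N, z = mul x (mul y n)} = {z | ∃ n ∈ N, z = mul (mul x y) n}
  right : ∀ x ∈ H, ∀ y ∈ H, {z | ∃ n ∈ N, z = mul (mul n x) y} = {z | ∃ n ∈ N, z = mul n (mul x y)}

/-- the quotient `H/N` has an invariant integral: there is a normalised positive linear functional on `C(H)`
which is invariant under the left and right translations of `H` on the functions constant on the cosets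
`xN` -/
def HasIntegralMod {G : Type*} [TopologicalSpace G] (mul : G → G → G) (N H : Set G) : Prop :=
  ∃ I : C(H, ℝ) →ₗ[ℝ] ℝ, I 1 = 1 ∧ (∀ f : C(H, ℝ), (∀ x, 0 ≤ f x) → 0 ≤ I f) ∧
    ∀ (k : H) (f g : C(H, ℝ)), (∀ x y : H, (∃ n ∈ N, (y : G) = mul x n) → f y = f x) →
      ((∀ y z : H, (z : G) = mul k y → g y = f z) ∨ (∀ y z : H, (z : G) = mul y k → g y = f z)) →
      I g = I f

/-- uniqueness: a left invariant and a right invariant state of a continuous operation coincide -/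
def X0 : Prop := ∀ (M : Type u) [TopologicalSpace M] [CompactSpace M] [T2Space M] (op : M → M → M),
  Continuous (fun p : M × M => op p.1 p.2) → ∀ μ₁ ∈ St M, ∀ μ₂ ∈ St M,
  (∀ (z : M) (f g : C(M, ℝ)), (∀ w, g w = f (op z w)) → μ₁ g = μ₁ f) →
  (∀ (w : M) (f g : C(M, ℝ)), (∀ z, g z = f (op z w)) → μ₂ g = μ₂ f) → μ₁ = μ₂

/-- autotopisms preserve the invariant state -/
def X1 : Prop := ∀ (M : Type u) [TopologicalSpace M] [CompactSpace M] [T2Space M] (mul : M → M → M) (e : M),
  Continuous (fun p : M × M => mul p.1 p.2) → (∀ x, mul e x = x) → (∀ x, mul x e = x) →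
  ∀ μ ∈ St M,
  (∀ (z : M) (f g : C(M, ℝ)), (∀ w, g w = f (mul z w)) → μ g = μ f) →
  (∀ (w : M) (f g : C(M, ℝ)), (∀ z, g z = f (mul z w)) → μ g = μ f) →
  ∀ α β δ : C(M, M), (∀ x y, δ (mul x y) = mul (α x) (β y)) → Function.Surjective α →
  Function.Surjective β → ∀ f : C(M, ℝ), μ (f.comp α) = μ f ∧ μ (f.comp β) = μ f ∧ μ (f.comp δ) = μ f

/-- the maps `z ↦ (z (n d)) d⁻¹` of a normal subloop preserve its invariant state -/
def X2 : Prop := ∀ (G : Type u) [TopologicalSpace G] [CompactSpace G] [T2Space G]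
  (mul ldiv rdiv : G → G → G) (e : G), IsMoufang mul ldiv rdiv e →
  Continuous (fun p : G × G => mul p.1 p.2) → Continuous (fun p : G × G => ldiv p.1 p.2) →
  ∀ N : Set G, NormalIn mul ldiv e N univ → ∀ μ ∈ St N,
  (∀ (z : N) (f g : C(N, ℝ)), (∀ w w' : N, (w' : G) = mul z w → g w = f w') → μ g = μ f) →
  (∀ (w : N) (f g : C(N, ℝ)), (∀ z z' : N, (z' : G) = mul z w → g z = f z') → μ g = μ f) →
  ∀ (d : G), ∀ n ∈ N, ∀ (f g : C(N, ℝ)),
    (∀ z z' : N, (z' : G) = mul (mul z (mul n d)) (ldiv d e) → g z = f z') → μ g = μ f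

/-- words in the translations which map the normal subloop onto itself preserve its invariant state -/
def X3 : Prop := ∀ (G : Type u) [TopologicalSpace G] [CompactSpace G] [T2Space G]
  (mul ldiv rdiv : G → G → G) (e : G), IsMoufang mul ldiv rdiv e →
  Continuous (fun p : G × G => mul p.1 p.2) → Continuous (fun p : G × G => ldiv p.1 p.2) →
  ∀ N : Set G, NormalIn mul ldiv e N univ → ∀ μ ∈ St N,
  (∀ (z : N) (f g : C(N, ℝ)), (∀ w w' : N, (w' : G) = mul z w → g w = f w') → μ g = μ f) →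
  (∀ (w : N) (f g : C(N, ℝ)), (∀ z z' : N, (z' : G) = mul z w → g z = f z') → μ g = μ f) →
  ∀ α β δ : G → G, Wd mul ldiv e α β δ → (∀ x ∈ N, α x ∈ N) → (∀ y ∈ N, ∃ x ∈ N, α x = y) →
  ∀ (f g : C(N, ℝ)), (∀ z z' : N, (z' : G) = α z → g z = f z') → μ g = μ f

/-- the extension theorem for the whole loop -/
def X4 : Prop := ∀ (G : Type u) [TopologicalSpace G] [CompactSpace G] [T2Space G]
  (mul ldiv rdiv : G → G → G) (e : G), IsMoufang mul ldiv rdiv e →
  Continuous (fun p : G × G => mul p.1 p.2) → Continuous (fun p : G × G => ldiv p.1 p.2) →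
  ∀ N : Set G, NormalIn mul ldiv e N univ → HasInvariantIntegralOn mul N →
  ∀ J ∈ St G, (∀ (k : G) (f g : C(G, ℝ)), (∀ x, ∀ n ∈ N, f (mul x n) = f x) →
      ((∀ x, g x = f (mul k x)) ∨ (∀ x, g x = f (mul x k))) → J g = J f) →
  AmenOn mul (univ : Set G)

/-- the extension theorem for closed subloops -/
def X5 : Prop := ∀ (L : Type u) [TopologicalSpace L] [CompactSpace L] [T2Space L]
  (mul ldiv rdiv : L → L → L) (e : L), IsMoufang mul ldiv rdiv e →
  Continuous (fun p : L × L => mul p.1 p.2) → Continuous (fun p : L × L => ldiv p.1 p.2) →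
  Continuous (fun p : L × L => rdiv p.1 p.2) →
  ∀ H N : Set L, ClosedSubloop mul ldiv e H → NormalIn mul ldiv e N H → HasInvariantIntegralOn mul N →
  HasIntegralMod mul N H → HasInvariantIntegralOn mul H

end Pool.Agent.H100R2.MH
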